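import Mathlib
import Pool.Agent.Lib.MP_222d4b_co.Every

set_option autoImplicit false

namespace Pool.Agent.Results.MP_222d4b_co.EveryValue

open Pool.Agent.Lib.MP_222d4b_co

/-- Two cells of the n by n grid are adjacent when they differ by 1 in exactly one coordinate. -/
def adjacent {n : ℕ} (c c' : Fin n × Fin n) : Prop :=
  (c.1 = c'.1 ∧ ((c.2 : ℕ) + 1 = c'.2 ∨ (c'.2 : ℕ) + 1 = c.2)) ∨
    (c.2 = c'.2 ∧ ((c.1 : ℕ) + 1 = c'.1 ∨ (c'.1 : ℕ) + 1 = c.1))

open Classical in
/-- The Lights Out matrix of the n by n grid over the field with two elements: the entry at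
(c, c') is 1 exactly when c = c' or the two cells are adjacent. -/
noncomputable def lightsOut (n : ℕ) : Matrix (Fin n × Fin n) (Fin n × Fin n) (ZMod 2) :=
  fun c c' => if c = c' ∨ adjacent c c' then 1 else 0

/-- The nullity d(n) = n ^ 2 - rank of the Lights Out matrix. -/
noncomputable def nullity (n : ℕ) : ℕ := n ^ 2 - (lightsOut n).rank

lemma ext_eq_sum {n : ℕ} (w : Fin n → ZMod 2) (i : ℕ) :
    ext w i = ∑ a : Fin n, (if i = a + 1 then 1 else 0) * w a := by
  cases i with
  | zero => simp [ext]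
  | succ i =>
    by_cases h : i < n
    · rw [Finset.sum_eq_single ⟨i, h⟩]
      · simp [ext, h]
      · intro b _ hb
        have : i ≠ b := fun e => hb (Fin.ext e.symm)
        simp [this]
      · simp
    · rw [Finset.sum_eq_zero]
      · simp [ext, h]
      · intro b _
        have : i ≠ b := by have := b.2; omega
        simp [this]

lemma ext_apply {n : ℕ} (v : Fin n → Fin n → ZMod 2) (i : ℕ) (j : Fin n) :
    ext v i j = ext (fun a => v a j) i := by
  cases i with
  | zero => simp [ext]
  | succ i => by_cases h : i < n <;> simp [ext, h]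

lemma entry {n : ℕ} (i j a b : Fin n) : lightsOut n (i, j) (a, b) =
    (if j = b then 1 else 0) *
      ((if (i : ℕ) = a + 1 then 1 else 0) + (if (i : ℕ) + 2 = a + 1 then 1 else 0)) +
    (if i = a then 1 else 0) *
      ((if (j : ℕ) = b + 1 then 1 else 0) + (if (j : ℕ) + 2 = b + 1 then 1 else 0) +
        (if j = b then 1 else 0)) := by
  simp only [lightsOut, adjacent, Prod.mk.injEq, Fin.ext_iff]
  split_ifs <;> first | rfl | omega

lemma apply_eq {n : ℕ} (v : Fin n → Fin n → ZMod 2) (i j : Fin n) :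
    Matrix.toLin' (lightsOut n) (fun c => v c.1 c.2) (i, j) =
      (pathOp n (Fin n → ZMod 2) +
        (pathOp n (ZMod 2) + 1 : Module.End (ZMod 2) (Fin n → ZMod 2)).compLeft (Fin n)) v i j := by
  show _ = ext v i j + ext v (i + 2) j + (ext (v i) j + ext (v i) (j + 2) + v i j)
  rw [ext_apply, ext_apply, ext_eq_sum, ext_eq_sum, ext_eq_sum, ext_eq_sum, Matrix.toLin'_apply,
    Matrix.mulVec, dotProduct, Fintype.sum_prod_type]
  simp only [entry, add_mul, mul_add, Finset.sum_add_distrib, ite_mul, one_mul, zero_mul,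
    Finset.sum_ite_eq, Finset.mem_univ, if_true, Finset.sum_ite_irrel, Finset.sum_const_zero]

lemma nullity_eq_ker (n : ℕ) :
    nullity n = Module.finrank (ZMod 2) (LinearMap.ker (Matrix.toLin' (lightsOut n))) := by
  have h := LinearMap.finrank_range_add_finrank_ker (Matrix.toLin' (lightsOut n))
  have h2 : (lightsOut n).rank =
      Module.finrank (ZMod 2) (LinearMap.range (Matrix.toLin' (lightsOut n))) := rfl
  rw [Module.finrank_fintype_fun_eq_card, Fintype.card_prod, Fintype.card_fin, ← h2] at h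
  rw [nullity, sq, ← h, Nat.add_sub_cancel_left]

lemma nullity_eq (n : ℕ) : nullity n = Module.finrank (ZMod 2)
    (LinearMap.ker (pathOp n (Fin n → ZMod 2) +
      (pathOp n (ZMod 2) + 1 : Module.End (ZMod 2) (Fin n → ZMod 2)).compLeft (Fin n))) := by
  rw [nullity_eq_ker]
  let e : (Fin n × Fin n → ZMod 2) ≃ₗ[ZMod 2] (Fin n → Fin n → ZMod 2) :=
    LinearEquiv.curry (ZMod 2) (ZMod 2) (Fin n) (Fin n)
  refine LinearEquiv.finrank_eq (e.ofSubmodules _ _ ?_)
  ext v
  rw [Submodule.mem_map_equiv, LinearMap.mem_ker, LinearMap.mem_ker]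
  constructor
  · intro h
    funext i j
    rw [← apply_eq]
    exact congrFun h (i, j)
  · intro h
    funext c
    obtain ⟨i, j⟩ := c
    have := apply_eq v i j
    rw [h] at this
    exact this

/-- The 5 by 5 grid has nullity 2, and every value of the nullity is repeated infinitely often:
for every positive n₀ there are infinitely many n with n₀ + 1 ∣ n + 1 and d(n) = d(n₀). -/
theorem result : nullity 5 = 2 ∧
    ∀ n₀ : ℕ, 0 < n₀ → {n : ℕ | n₀ + 1 ∣ n + 1 ∧ nullity n = nullity n₀}.Infinite := by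
  refine ⟨(nullity_eq 5).trans (finrank_main 1 le_rfl 5 rfl), fun n₀ h₀ => ?_⟩
  simp only [nullity_eq]
  exact infinite_values n₀ h₀

end Pool.Agent.Results.MP_222d4b_co.EveryValue
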